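import Pool.Agent.H96.T4.Core
import Pool.Graph.R_pool_sql_team_seeded_5cf16337.K3h26.R6.Fin

/-!
# MP_c4753b_co, Q1: a convex body with `δ_L(K) < δ_T(K)` in every dimension `d ≥ 4`

In every dimension `d ≥ 4` there is a convex body `K ⊂ ℝ^d`, symmetric about the origin, whose
densest translative packing is strictly denser than its densest lattice packing. Since the two
densities agree in the plane, the smallest dimension of the question is `3` or `4`, and every
dimension from `4` on has the property. The new case is `d = 4` (`Pool.Agent.H96.T4.core4`); the
cases `d ≥ 5` are the earlier theorem of the library.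

The definitions (in `Pool.Graph.R_seed8.H947R2.TP.Defs`) are the ones of the problem:

* `eball d R` is the Euclidean ball of radius `R` centred at the origin of `ℝ^d = Fin d → ℝ`,
* `tr x K = x + K`,
* `IsPacking K X`: the translates `x + K`, `x ∈ X`, have pairwise disjoint interiors,
* `density K X = limsup_{R → ∞} vol (B_R ∩ ⋃_{x ∈ X} (x + K)) / vol B_R`,
* `IsLattice X`: `X` is the set of all integer combinations of a basis of `ℝ^d`,
* `deltaT K`, `deltaL K`: the suprema of the densities over all packings, respectively over all
  packings by a lattice of translation vectors.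

Sketch for `d = 4`. Coordinates `(x, y)` with `x ∈ ℝ^3`; `X_i = 5 x_i - (x_0 + x_1 + x_2)`,
`Y_i = X_j + X_k`, `W = X_0 + X_1 + X_2`. The Voronoi cell `P` of `5 I - J` on `ℤ^3` is
`|X_i| ≤ 2, |Y_i| ≤ 3, |W| ≤ 3` (a truncated octahedron), of volume `1`. The body is the set of
`v = (x, y)` whose double satisfies `|X_i| / 4 + ε r(y) ≤ 1`, `|Y_i| / 6 + ε |y| ≤ 1`,
`|W| / 6 + 27 ε / 50 ≤ 1`, `|y| ≤ 1`, where `r(y) = 12/25 + 2/5 max (0, |y| - 2/5)`.
The nonlattice packing has the centres `((1 - ε/2) z + (ε/25) (k mod 2) (1,1,1), n + [k ≥ 2] / 2)`,
`z ∈ ℤ^3`, `n ∈ ℤ`, `k = (z_0 + z_1 + z_2) mod 4`; its cells have volume `(1 - ε/2)^3`, that is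
`1 - 1.5 ε` to first order. For small `ε` every lattice packing has cells of volume at least
`1 - 1.49 ε`: in a limit `ε → 0` the lattice becomes a tiling lattice of `P × [-1/2, 1/2]`. Either
it contains all `(e_i, 0)`, and a slightly reduced cell is disjoint from its translates; or it is
generated by `(0, 1)` and `(e_i, a_i)`, and then the contact inequalities over the facets `e_i`,
`e_j + e_k` for both signs of the offset, divided by the size of the deviation and passed to the
limit, form a linear system which bounds the first variation of the determinant (the antisymmetric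
part of the deviation only increases the determinant of a matrix near `5 I - J`): every choice of
the offsets `a_i` costs at least `0.012` against the value `1.5`.
-/

set_option autoImplicit false

namespace Pool.Agent.Results.MP_c4753b_co.FromDimensionFour

open H947TP

/-- **Theorem.** In every dimension `d ≥ 4` there is a convex body `K` in `ℝ^d` (compact, convex,
with nonempty interior), symmetric about the origin, with `δ_L(K) < δ_T(K)`. -/
theorem result : ∀ d : ℕ, 4 ≤ d → ∃ K : Set (Fin d → ℝ), Convex ℝ K ∧ IsCompact K ∧
    (interior K).Nonempty ∧ (∀ x ∈ K, -x ∈ K) ∧ deltaL K < deltaT K := by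
  intro d hd
  rcases hd.eq_or_lt with h | h
  · subst h
    exact Pool.Agent.H96.T4.core4
  · exact Pool.Agent.K3h26.R6.main_ge d h

end Pool.Agent.Results.MP_c4753b_co.FromDimensionFour
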